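import Pool.Agent.H83.UE.Targets

/-!
# CS: the Cauchy-Schwarz bound for positive currents (board uda_modules), helper70
-/

set_option autoImplicit false

open Polynomial MeasureTheory Filter Topology Set
open scoped ComplexConjugate ComplexOrder ENNReal
open Pool.Agent.H83.UE

namespace Pool.Agent.H70.UDA

lemma psd_entry {ι : Type*} [Fintype ι] [DecidableEq ι] {M : Matrix ι ι ℂ} (hM : M.PosSemidef)
    (I J : ι) : ‖M I J‖ₑ ≤ ENNReal.ofReal (M I I).re ^ (1 / 2 : ℝ) *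
      ENNReal.ofReal (M J J).re ^ (1 / 2 : ℝ) := by
  have hI : 0 ≤ M I I := hM.diag_nonneg
  have hJ : 0 ≤ M J J := hM.diag_nonneg
  have hherm : M J I = conj (M I J) := by
    have := hM.1.apply J I
    simpa using this.symm
  have hdet := (hM.submatrix ![I, J]).det_nonneg
  rw [Matrix.det_fin_two] at hdet
  simp only [Matrix.submatrix_apply, Matrix.cons_val_zero, Matrix.cons_val_one] at hdet
  rw [hherm, Complex.mul_conj] at hdet
  have hI' := Complex.nonneg_iff.mp hI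
  have hJ' := Complex.nonneg_iff.mp hJ
  have hd' := (Complex.nonneg_iff.mp hdet).1
  simp only [Complex.sub_re, Complex.mul_re, Complex.ofReal_re] at hd'
  rw [← hI'.2, ← hJ'.2, Complex.normSq_eq_norm_sq] at hd'
  have h1 : ‖M I J‖ ^ 2 ≤ (M I I).re * (M J J).re := by linarith
  rw [← ENNReal.mul_rpow_of_nonneg _ _ (by norm_num), ← ENNReal.ofReal_mul hI'.1]
  have h2 : ‖M I J‖ₑ = (‖M I J‖ₑ ^ (2 : ℝ)) ^ (1 / 2 : ℝ) := by
    rw [← ENNReal.rpow_mul]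
    norm_num
  rw [h2]
  refine ENNReal.rpow_le_rpow ?_ (by norm_num)
  rw [← ofReal_norm, ENNReal.ofReal_rpow_of_nonneg (norm_nonneg _) (by norm_num)]
  refine ENNReal.ofReal_le_ofReal ?_
  rw [Real.rpow_two]
  exact h1

theorem pf_CS (h1 : T_MAR) : T_CS := by
  classical
  intro k m S I J A B hA hB
  -- the two families
  set ρ : Finset (Fin k) → Fin k → ℂ → ℝ≥0∞ :=
    fun K l x => if l ∈ K then A l x else A l x ^ 2 with hρ
  have hρm : ∀ K l, Measurable (ρ K l) := by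
    intro K l
    simp only [hρ]
    by_cases h : l ∈ K
    · simpa [h] using hA l
    · simpa [h] using (hA l).pow_const 2
  have hsplit : ∀ (X Y : Finset (Fin k)) (z : Fin k → ℂ), ∏ l ∈ X, ρ Y l (z l) =
      (∏ l ∈ X \ Y, A l (z l)) ^ 2 * ∏ l ∈ X ∩ Y, A l (z l) := by
    intro X Y z
    rw [← Finset.prod_sdiff (Finset.inter_subset_left (s₁ := X) (s₂ := Y)),
      Finset.sdiff_inter_self_left, ← Finset.prod_pow]
    congr 1
    · refine Finset.prod_congr rfl fun l hl => ?_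
      simp [hρ, (Finset.mem_sdiff.mp hl).2]
    · refine Finset.prod_congr rfl fun l hl => ?_
      simp [hρ, (Finset.mem_inter.mp hl).2]
  have hsplit' : ∀ (X Y : Finset (Fin k)), ∏ l ∈ X, ∫⁻ x, ρ Y l x =
      (∏ l ∈ X \ Y, ∫⁻ x, A l x ^ 2) * ∏ l ∈ X ∩ Y, ∫⁻ x, A l x := by
    intro X Y
    rw [← Finset.prod_sdiff (Finset.inter_subset_left (s₁ := X) (s₂ := Y)),
      Finset.sdiff_inter_self_left]
    congr 1
    · refine Finset.prod_congr rfl fun l hl => ?_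
      simp [hρ, (Finset.mem_sdiff.mp hl).2]
    · refine Finset.prod_congr rfl fun l hl => ?_
      simp [hρ, (Finset.mem_inter.mp hl).2]
  -- the two factors
  set f : Idx k m → Idx k m → (Fin k → ℂ) → ℝ≥0∞ := fun X Y z =>
    (∏ l ∈ X.1 \ Y.1, A l (z l)) * (∏ l ∈ X.1 ∩ Y.1, A l (z l)) ^ (1 / 2 : ℝ) *
      ENNReal.ofReal (S.h z X X).re ^ (1 / 2 : ℝ) with hf
  have hprodm : ∀ X : Finset (Fin k), Measurable fun z : Fin k → ℂ => ∏ l ∈ X, A l (z l) := by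
    intro X
    exact Finset.measurable_prod _ fun l _ => (hA l).comp (measurable_pi_apply l)
  have hfm : ∀ X Y, Measurable (f X Y) := by
    intro X Y
    have ha : Measurable fun z => ENNReal.ofReal (S.h z X X).re :=
      (Complex.measurable_re.comp (S.meas X X)).ennreal_ofReal
    exact ((hprodm _).mul ((hprodm _).pow_const _)).mul (ha.pow_const _)
  have hf2 : ∀ X Y : Idx k m, ∫⁻ z, f X Y z ^ (2 : ℝ) ∂S.σ =
      S.c X * ((∏ l ∈ X.1 \ Y.1, ∫⁻ x, A l x ^ 2) * ∏ l ∈ X.1 ∩ Y.1, ∫⁻ x, A l x) := by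
    intro X Y
    rw [← hsplit', ← h1 k m S X (ρ Y.1) (hρm Y.1)]
    refine lintegral_congr fun z => ?_
    rw [hsplit]
    simp only [hf]
    rw [ENNReal.mul_rpow_of_nonneg _ _ (by norm_num), ENNReal.mul_rpow_of_nonneg _ _ (by norm_num),
      ← ENNReal.rpow_mul, ← ENNReal.rpow_mul]
    norm_num
  -- pointwise bound
  have hpt : ∀ z, (∏ l, A l (z l)) * ‖S.h z I J‖ₑ ≤
      (∏ l ∈ (I.1 ∪ J.1)ᶜ, B l) * (f I J z * f J I z) := by
    intro z
    have hs1 : ∏ l, A l (z l) = (∏ l ∈ (I.1 ∪ J.1)ᶜ, A l (z l)) *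
        ((∏ l ∈ I.1 \ J.1, A l (z l)) * (∏ l ∈ J.1 \ I.1, A l (z l)) *
          ∏ l ∈ I.1 ∩ J.1, A l (z l)) := by
      rw [← Finset.prod_compl_mul_prod (I.1 ∪ J.1)]
      congr 1
      have hu : I.1 ∪ J.1 = (I.1 \ J.1) ∪ J.1 := (Finset.sdiff_union_self_eq_union).symm
      rw [hu, Finset.prod_union Finset.sdiff_disjoint, mul_assoc]
      congr 1
      rw [← Finset.prod_sdiff (Finset.inter_subset_left (s₁ := J.1) (s₂ := I.1)),
        Finset.sdiff_inter_self_left, Finset.inter_comm]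
    have hs2 : (∏ l ∈ (I.1 ∪ J.1)ᶜ, A l (z l)) ≤ ∏ l ∈ (I.1 ∪ J.1)ᶜ, B l := by
      refine Finset.prod_le_prod' fun l hl => ?_
      rw [Finset.mem_compl, Finset.mem_union, not_or] at hl
      exact hB l (z l) hl.1 hl.2
    have hs3 : (∏ l ∈ I.1 ∩ J.1, A l (z l)) = (∏ l ∈ I.1 ∩ J.1, A l (z l)) ^ (1 / 2 : ℝ) *
        (∏ l ∈ J.1 ∩ I.1, A l (z l)) ^ (1 / 2 : ℝ) := by
      rw [Finset.inter_comm J.1 I.1, ← ENNReal.rpow_add_of_nonneg _ _ (by norm_num) (by norm_num)]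
      norm_num
    have hs4 := psd_entry (S.psd z) I J
    rw [hs1]
    calc (∏ l ∈ (I.1 ∪ J.1)ᶜ, A l (z l)) *
        ((∏ l ∈ I.1 \ J.1, A l (z l)) * (∏ l ∈ J.1 \ I.1, A l (z l)) *
          ∏ l ∈ I.1 ∩ J.1, A l (z l)) * ‖S.h z I J‖ₑ
        ≤ (∏ l ∈ (I.1 ∪ J.1)ᶜ, B l) *
        ((∏ l ∈ I.1 \ J.1, A l (z l)) * (∏ l ∈ J.1 \ I.1, A l (z l)) *
          ∏ l ∈ I.1 ∩ J.1, A l (z l)) * (ENNReal.ofReal (S.h z I I).re ^ (1 / 2 : ℝ) *
            ENNReal.ofReal (S.h z J J).re ^ (1 / 2 : ℝ)) := by gcongr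
      _ = (∏ l ∈ (I.1 ∪ J.1)ᶜ, B l) * (f I J z * f J I z) := by
          rw [hs3]
          simp only [hf]
          ring
  calc ∫⁻ z, (∏ l, A l (z l)) * ‖S.h z I J‖ₑ ∂S.σ
      ≤ ∫⁻ z, (∏ l ∈ (I.1 ∪ J.1)ᶜ, B l) * (f I J z * f J I z) ∂S.σ := lintegral_mono hpt
    _ = (∏ l ∈ (I.1 ∪ J.1)ᶜ, B l) * ∫⁻ z, (f I J * f J I) z ∂S.σ := by
        exact lintegral_const_mul _ ((hfm I J).mul (hfm J I))
    _ ≤ (∏ l ∈ (I.1 ∪ J.1)ᶜ, B l) * ((∫⁻ z, f I J z ^ (2 : ℝ) ∂S.σ) ^ (1 / 2 : ℝ) *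
          (∫⁻ z, f J I z ^ (2 : ℝ) ∂S.σ) ^ (1 / 2 : ℝ)) := by
        gcongr
        exact ENNReal.lintegral_mul_le_Lp_mul_Lq S.σ Real.HolderConjugate.two_two
          (hfm I J).aemeasurable (hfm J I).aemeasurable
    _ = _ := by
        rw [hf2, hf2, Finset.inter_comm J.1 I.1]
        have hs5 : ∏ l ∈ symmDiff I.1 J.1, (∫⁻ x, A l x ^ 2) ^ (1 / 2 : ℝ) =
            (∏ l ∈ I.1 \ J.1, ∫⁻ x, A l x ^ 2) ^ (1 / 2 : ℝ) *
              (∏ l ∈ J.1 \ I.1, ∫⁻ x, A l x ^ 2) ^ (1 / 2 : ℝ) := by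
          rw [symmDiff_def, Finset.sup_eq_union, Finset.prod_union disjoint_sdiff_sdiff,
            ENNReal.prod_rpow_of_nonneg (by norm_num), ENNReal.prod_rpow_of_nonneg (by norm_num)]
        have hs6 : (∏ l ∈ I.1 ∩ J.1, ∫⁻ x, A l x) = (∏ l ∈ I.1 ∩ J.1, ∫⁻ x, A l x) ^ (1 / 2 : ℝ) *
            (∏ l ∈ I.1 ∩ J.1, ∫⁻ x, A l x) ^ (1 / 2 : ℝ) := by
          rw [← ENNReal.rpow_add_of_nonneg _ _ (by norm_num) (by norm_num)]
          norm_num
        rw [hs5]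
        conv_rhs => rw [hs6]
        rw [ENNReal.mul_rpow_of_nonneg _ _ (by norm_num),
          ENNReal.mul_rpow_of_nonneg _ _ (by norm_num),
          ENNReal.mul_rpow_of_nonneg _ _ (by norm_num),
          ENNReal.mul_rpow_of_nonneg _ _ (by norm_num),
          ENNReal.mul_rpow_of_nonneg _ _ (by norm_num)]
        ring

end Pool.Agent.H70.UDA
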