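import Pool.Agent.H83.UE.Targets

/-!
# GRN: the Green potential (board uda_modules), helper70
-/

set_option autoImplicit false

open Polynomial MeasureTheory Filter Topology Set
open Pool.Agent.H83.UE

namespace Pool.Agent.H70.UDA

lemma hev_one {D : ℕ} {A : ℂ[X]} (h : A.natDegree ≤ D) (x : ℂ) : hev D A (x, 1) = A.eval x := by
  unfold hev
  rw [Polynomial.eval_eq_sum_range' (Nat.lt_succ_of_le h)]
  refine Finset.sum_congr rfl fun i _ => ?_
  simp

lemma hev_smul (D : ℕ) (A : ℂ[X]) (t : ℂ) (v : ℂ × ℂ) :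
    hev D A (t • v) = t ^ D * hev D A v := by
  unfold hev
  rw [Finset.mul_sum]
  refine Finset.sum_congr rfl fun i hi => ?_
  have hi' : i ≤ D := Nat.lt_succ_iff.mp (Finset.mem_range.mp hi)
  have h1 : t ^ D = t ^ i * t ^ (D - i) := by rw [← pow_add, Nat.add_sub_cancel' hi']
  simp only [Prod.smul_fst, Prod.smul_snd, smul_eq_mul, mul_pow, h1]
  ring

lemma F_smul {d : ℕ} (g : RatMap d) (t : ℂ) (v : ℂ × ℂ) : g.F (t • v) = t ^ d • g.F v := by
  unfold RatMap.F
  simp only [hev_smul, Prod.smul_mk, smul_eq_mul]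

lemma Fit_smul {d : ℕ} (g : RatMap d) (n : ℕ) (t : ℂ) (v : ℂ × ℂ) :
    g.F^[n] (t • v) = t ^ (d ^ n) • g.F^[n] v := by
  induction n with
  | zero => simp
  | succ n ih =>
    rw [Function.iterate_succ_apply', ih, F_smul, Function.iterate_succ_apply', ← pow_mul,
      ← pow_succ]

theorem pf_GRN (h1 : T_IT) (h2 : T_FN) : T_GRN := by
  intro d hd g
  have hd1 : 1 ≤ d := by omega
  have hdR : (2 : ℝ) ≤ d := by exact_mod_cast hd
  have hd0 : (0 : ℝ) < d := by linarith
  obtain ⟨hcont, C, hC1, hC⟩ := h2 d hd1 g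
  have hC0 : 0 < C := by linarith
  have hlC : 0 ≤ Real.log C := Real.log_nonneg hC1
  have hne1 : ∀ v : ℂ × ℂ, v ≠ 0 → g.F v ≠ 0 := by
    intro v hv h0
    have h := (hC v).1
    rw [h0, norm_zero] at h
    have hp : 0 < ‖v‖ ^ d / C := div_pos (pow_pos (norm_pos_iff.mpr hv) d) hC0
    linarith
  have hne : ∀ (n : ℕ) (v : ℂ × ℂ), v ≠ 0 → g.F^[n] v ≠ 0 := by
    intro n v hv
    induction n with
    | zero => simpa using hv
    | succ n ih =>
      rw [Function.iterate_succ_apply']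
      exact hne1 _ ih
  have hstep : ∀ w : ℂ × ℂ, w ≠ 0 → |Real.log ‖g.F w‖ - d * Real.log ‖w‖| ≤ Real.log C := by
    intro w hw
    have hwp : 0 < ‖w‖ := norm_pos_iff.mpr hw
    have hFp : 0 < ‖g.F w‖ := norm_pos_iff.mpr (hne1 w hw)
    have hpd : 0 < ‖w‖ ^ d := pow_pos hwp d
    obtain ⟨ha, hb⟩ := hC w
    have ha' := Real.log_le_log (div_pos hpd hC0) ha
    have hb' := Real.log_le_log hFp hb
    rw [Real.log_div hpd.ne' hC0.ne', Real.log_pow] at ha'
    rw [Real.log_mul hC0.ne' hpd.ne', Real.log_pow] at hb'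
    rw [abs_le]
    constructor <;> linarith
  set L : ℕ → ℂ × ℂ → ℝ := fun n v => ((d : ℝ) ^ n)⁻¹ * Real.log ‖g.F^[n] v‖ with hL
  have hLd : ∀ v : ℂ × ℂ, v ≠ 0 → ∀ n : ℕ, dist (L n v) (L (n + 1) v) ≤
      (Real.log C / d) * (1 / (d : ℝ)) ^ n := by
    intro v hv n
    have hs := hstep _ (hne n v hv)
    rw [dist_comm, Real.dist_eq]
    have e : L (n + 1) v - L n v = ((d : ℝ) ^ (n + 1))⁻¹ *
        (Real.log ‖g.F (g.F^[n] v)‖ - d * Real.log ‖g.F^[n] v‖) := by
      simp only [hL]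
      rw [Function.iterate_succ_apply', pow_succ]
      field_simp
    rw [e, abs_mul, abs_of_nonneg (by positivity)]
    calc ((d : ℝ) ^ (n + 1))⁻¹ * |Real.log ‖g.F (g.F^[n] v)‖ - d * Real.log ‖g.F^[n] v‖|
        ≤ ((d : ℝ) ^ (n + 1))⁻¹ * Real.log C :=
          mul_le_mul_of_nonneg_left hs (by positivity)
      _ = (Real.log C / d) * (1 / (d : ℝ)) ^ n := by
          rw [pow_succ, one_div, inv_pow, mul_inv]
          ring
  have hr1 : 1 / (d : ℝ) < 1 := by
    rw [div_lt_one hd0]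
    linarith
  have key : ∀ v : ℂ × ℂ, v ≠ 0 → ∃ a : ℝ, Tendsto (fun n => L n v) atTop (𝓝 a) := by
    intro v hv
    exact cauchySeq_tendsto_of_complete
      (cauchySeq_of_le_geometric (1 / (d : ℝ)) (Real.log C / d) hr1 (hLd v hv))
  choose! Gh hGh using key
  have hbd : ∀ v : ℂ × ℂ, v ≠ 0 → ∀ n : ℕ, dist (L n v) (Gh v) ≤
      (Real.log C / d) * (1 / (d : ℝ)) ^ n / (1 - 1 / (d : ℝ)) := by
    intro v hv n
    exact dist_le_of_le_geometric_of_tendsto (1 / (d : ℝ)) (Real.log C / d) hr1 (hLd v hv)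
      (hGh v hv) n
  have hLc : ∀ n, ContinuousOn (L n) {v : ℂ × ℂ | v ≠ 0} := by
    intro n
    refine ContinuousOn.mul continuousOn_const ?_
    exact ((hcont.iterate n).norm.continuousOn).log (fun v hv => norm_ne_zero_iff.mpr (hne n v hv))
  have hunif : TendstoUniformlyOn L Gh atTop {v : ℂ × ℂ | v ≠ 0} := by
    rw [Metric.tendstoUniformlyOn_iff]
    intro ε hε
    have ht : Tendsto (fun n : ℕ => (Real.log C / d) * (1 / (d : ℝ)) ^ n / (1 - 1 / (d : ℝ)))
        atTop (𝓝 0) := by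
      have := ((tendsto_pow_atTop_nhds_zero_of_lt_one (by positivity) hr1).const_mul
        (Real.log C / d)).div_const (1 - 1 / (d : ℝ))
      simpa using this
    filter_upwards [ht.eventually (gt_mem_nhds hε)] with n hn v hv
    rw [dist_comm]
    exact lt_of_le_of_lt (hbd v hv n) hn
  have hGc : ContinuousOn Gh {v : ℂ × ℂ | v ≠ 0} :=
    hunif.continuousOn (Eventually.of_forall hLc).frequently
  have hopen : IsOpen {v : ℂ × ℂ | v ≠ 0} := isOpen_ne
  have hx1 : ∀ x : ℂ, ((x, 1) : ℂ × ℂ) ≠ 0 := by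
    intro x h
    have := congrArg Prod.snd h
    simp at this
  have hLx : ∀ (n : ℕ) (x : ℂ), L n (x, 1) = ((d : ℝ) ^ n)⁻¹ *
      Real.log (max ‖(g.it n).1.eval x‖ ‖(g.it n).2.eval x‖) := by
    intro n x
    obtain ⟨hA, hB, -, -, hw⟩ := h1 d hd1 g n
    simp only [hL]
    rw [hw (x, 1), hev_one hA, hev_one hB, Prod.norm_def]
  have hhom : ∀ (t : ℂ) (v : ℂ × ℂ), t ≠ 0 → v ≠ 0 → Gh (t • v) = Real.log ‖t‖ + Gh v := by
    intro t v ht hv
    have htv : t • v ≠ 0 := smul_ne_zero ht hv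
    have e : ∀ n, L n (t • v) = Real.log ‖t‖ + L n v := by
      intro n
      simp only [hL]
      rw [Fit_smul, norm_smul, norm_pow, Real.log_mul
        (pow_ne_zero _ (norm_ne_zero_iff.mpr ht)) (norm_ne_zero_iff.mpr (hne n v hv)),
        Real.log_pow]
      push_cast
      have : ((d : ℝ) ^ n) ≠ 0 := by positivity
      field_simp
    have h3 : Tendsto (fun n => L n (t • v)) atTop (𝓝 (Real.log ‖t‖ + Gh v)) := by
      simp only [e]
      exact (hGh v hv).const_add _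
    exact tendsto_nhds_unique (hGh _ htv) h3
  refine ⟨fun x => Gh (x, 1), ?_, ?_, ?_, ?_⟩
  · exact hGc.comp_continuous (by fun_prop) (fun x => hx1 x)
  · intro x
    have := hGh (x, 1) (hx1 x)
    simpa only [hLx] using this
  · refine ⟨(Real.log C / d) / (1 - 1 / (d : ℝ)), fun n x => ?_⟩
    rw [← hLx, ← Real.dist_eq]
    refine (hbd _ (hx1 x) n).trans (le_of_eq ?_)
    rw [one_div, inv_pow]
    ring
  · refine ⟨Gh (1, 0), ?_⟩
    have h10 : ((1, 0) : ℂ × ℂ) ≠ 0 := by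
      intro h
      have := congrArg Prod.fst h
      simp at this
    have hca : ContinuousAt Gh (1, 0) := hGc.continuousAt (hopen.mem_nhds h10)
    have ht : Tendsto (fun x : ℂ => ((1 : ℂ), x⁻¹)) (Bornology.cobounded ℂ) (𝓝 (1, 0)) := by
      rw [nhds_prod_eq]
      exact tendsto_const_nhds.prodMk tendsto_inv₀_cobounded
    have h4 := hca.tendsto.comp ht
    refine h4.congr' ?_
    have hev0 : ∀ᶠ x : ℂ in Bornology.cobounded ℂ, x ≠ 0 := by
      have := (tendsto_norm_cobounded_atTop (E := ℂ)).eventually (eventually_gt_atTop 0)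
      filter_upwards [this] with x hx
      exact norm_pos_iff.mp hx
    filter_upwards [hev0] with x hx
    have e1 : ((x, 1) : ℂ × ℂ) = x • ((1 : ℂ), x⁻¹) := by
      simp [hx]
    have h5 : ((1 : ℂ), x⁻¹) ≠ 0 := by
      intro h
      have := congrArg Prod.fst h
      simp at this
    show Gh (1, x⁻¹) = Gh (x, 1) - Real.log ‖x‖
    rw [e1, hhom x _ hx h5]
    ring

end Pool.Agent.H70.UDA
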